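import Pool.Agent.U446.OB.Upper

/-!
# The volume of one-bend orthogonal box drawings of `K_n` is of order `n³` (MP_40073f_co, Q1)

`Pool.Agent.U446.OB.V1 n` is the minimum volume of a three-dimensional orthogonal 1-bend box
drawing of `K_n`.  We prove `n³ / 69120 ≤ V1 n ≤ 3 n³` for all `n ≥ 1`, so `V1 n = Θ(n³)`.

Lower bound.  Some plane, say `z = z₀`, meets a set `S` of `N ≥ n/6` boxes, because every pair of
boxes overlaps in one of the three directions.  Let `g = ⌊(N-1)/80⌋`.  A pair in `S` whose route
spans more than `g` in the `x`- or the `y`-direction uses more than `g` grid points of its own, so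
there are at most `vol/(g+1)` such pairs.  The other pairs are at most `20 g N`: a pair whose
projections overlap in one direction and are at distance at most `g` in the other is charged to one
of its boxes and that distance; every other short pair is joined by an L-shaped route in a plane
`z = h`, say `h ≥ z₀`; it is charged to the box `m` of the pair whose top is lower, to the
directions, and to the distance from `m` to the corner in the direction in which the route leaves
`m`.  The other box is then determined: of two candidates, both present up to the top of `m`, the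
nearer one would block the route to the farther one.
-/

set_option autoImplicit false

namespace Pool.Agent.Results.MP_40073f_co.CubicVolume

open Pool.Agent.U446.OB

/-- The minimum volume `V₁(n)` of a 3D orthogonal 1-bend box drawing of `K_n` satisfies
`n³ / 69120 ≤ V₁(n) ≤ 3 n³` for all `n ≥ 1`; in particular `V₁(n) = Θ(n³)`. -/
theorem result :
    (∀ n : ℕ, 1 ≤ n → n ^ 3 ≤ 69120 * V1 n ∧ V1 n ≤ 3 * n ^ 3) ∧
      (fun n : ℕ => (V1 n : ℝ)) =Θ[Filter.atTop] (fun n : ℕ => (n : ℝ) ^ 3) := by
  have key : ∀ n : ℕ, 1 ≤ n → n ^ 3 ≤ 69120 * V1 n ∧ V1 n ≤ 3 * n ^ 3 := by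
    intro n hn
    have hmem : (Finset.Icc (v3 0 0 0) (v3 (n - 1) (n - 1) (2 * n))).card ∈
        {m | ∃ D : Drawing n, ∃ A B : Fin 3 → ℤ, D.InBox A B ∧ m = (Finset.Icc A B).card} :=
      ⟨std n, _, _, std_inBox n, rfl⟩
    constructor
    · obtain ⟨D, A, B, hin, hV⟩ := Nat.sInf_mem ⟨_, hmem⟩
      have h := lower D hn A B hin
      rw [V1, hV]
      exact h
    · exact (Nat.sInf_le hmem).trans (std_card n hn)
  refine ⟨key, ?_, ?_⟩
  · apply Asymptotics.IsBigO.of_bound 3
    filter_upwards [Filter.eventually_ge_atTop 1] with n hn
    have h := (key n hn).2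
    rw [Real.norm_of_nonneg (Nat.cast_nonneg _), Real.norm_of_nonneg (by positivity)]
    exact_mod_cast h
  · apply Asymptotics.IsBigO.of_bound 69120
    filter_upwards [Filter.eventually_ge_atTop 1] with n hn
    have h := (key n hn).1
    rw [Real.norm_of_nonneg (Nat.cast_nonneg _), Real.norm_of_nonneg (by positivity)]
    exact_mod_cast h

end Pool.Agent.Results.MP_40073f_co.CubicVolume
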